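import Pool.Agent.H71.CW.AllG
import Pool.Agent.H76.CW.GM1
import Pool.Agent.H16.CW.GM2
import Pool.Agent.H75.CW.GM3
import Pool.Agent.H41.HC.Main

/-!
# Vaught's conjecture for structures of bounded clique-width, and counterexamples

Structures are pairs `(c, u)` of a function `c` from the pairs of natural numbers to a finite set
and a function `u` from the natural numbers to a standard Borel space.  Let `X` be a Borel
isomorphism invariant class of structures without perfectly many types.  We show that the members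
of `X` of finite width have only countably many types, and so do the members with a bounded number
of germs at the directions of the structure and the members without perfectly many types of
infinite induced substructures; and that `X` has countably many types or uncountably
many of its types have a divisible direction with infinitely many germs.  The width is the
module-width, which is finite if and only if the clique-width is finite.  In particular the
countable-or-perfect dichotomy holds for every Borel class of structures of finite clique-width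
and for every Borel class that is closed under infinite induced substructures.
-/

set_option autoImplicit false

open Set

namespace Pool.Agent.H41.Keep.CliqueWidth3

/-- Structures: a function `c` of two variables with `n` values, and a colour in `C` for every
vertex. -/
abbrev Structure (n : ℕ) (C : Type) : Type := (ℕ → ℕ → Fin n) × (ℕ → C)

/-- `g` is an isomorphism from the structure `x` onto the structure `y`. -/
def IsIsomorphism {n : ℕ} {C : Type} (x y : Structure n C) (g : Equiv.Perm ℕ) : Prop :=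
  (∀ i j, y.1 (g i) (g j) = x.1 i j) ∧ ∀ i, y.2 (g i) = x.2 i

/-- `A` contains structures of only countably many isomorphism types. -/
def CountablyManyTypes {n : ℕ} {C : Type} (A : Set (Structure n C)) : Prop :=
  ∃ D : Set (Structure n C), D.Countable ∧ ∀ x ∈ A, ∃ y ∈ D, ∃ g, IsIsomorphism x y g

/-- `A` contains structures of perfectly many isomorphism types: some Borel map from the Cantor
space to `A` takes distinct points to structures which are not isomorphic. -/
def PerfectlyManyTypes {n : ℕ} {C : Type} [MeasurableSpace C] (A : Set (Structure n C)) : Prop :=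
  ∃ F : (ℕ → Bool) → Structure n C, Measurable F ∧ (∀ u, F u ∈ A) ∧
    ∀ u v, u ≠ v → ¬ ∃ g, IsIsomorphism (F u) (F v) g

/-- The points of `A` have at most `k` classes over `B`: they can be labelled with `k` labels such
that points with the same label are related in the same way to all points of `B`. -/
def ClassesAtMost {n : ℕ} (c : ℕ → ℕ → Fin n) (k : ℕ) (A B : Set ℕ) : Prop :=
  ∃ f : ℕ → Fin k, ∀ a ∈ A, ∀ a' ∈ A, f a = f a' → ∀ z ∈ B, c a z = c a' z ∧ c z a = c z a'

/-- The parts in the decompositions of the finite set `W`: single points, and unions of two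
disjoint parts which have at most `k` classes over the rest of `W`. -/
inductive IsPart {n : ℕ} (c : ℕ → ℕ → Fin n) (k : ℕ) (W : Finset ℕ) : Finset ℕ → Prop
  | single (v : ℕ) : v ∈ W → IsPart c k W {v}
  | union (A B : Finset ℕ) : IsPart c k W A → IsPart c k W B → Disjoint A B →
      ClassesAtMost c k ((A ∪ B : Finset ℕ) : Set ℕ) ((W \ (A ∪ B) : Finset ℕ) : Set ℕ) →
      IsPart c k W (A ∪ B)

/-- The width is at most `k`: every nonempty finite set can be decomposed. -/
def WidthAtMost {n : ℕ} (c : ℕ → ℕ → Fin n) (k : ℕ) : Prop :=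
  ∀ W : Finset ℕ, W.Nonempty → IsPart c k W W

/-- Sets of finite index: they have finitely many classes over their complements. -/
def FiniteIndex {n : ℕ} (c : ℕ → ℕ → Fin n) (A : Set ℕ) : Prop := ∃ k, ClassesAtMost c k A Aᶜ

/-- `U` is a direction: a family of infinite sets of finite index, closed under intersections,
which contains of every set of finite index and its complement one. -/
def IsDirection {n : ℕ} (c : ℕ → ℕ → Fin n) (U : Set (Set ℕ)) : Prop :=
  (∀ A ∈ U, FiniteIndex c A ∧ A.Infinite) ∧ (∀ A ∈ U, ∀ B ∈ U, A ∩ B ∈ U) ∧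
    ∀ A, FiniteIndex c A → A ∈ U ∨ Aᶜ ∈ U

/-- The points `a` and `b` have the same germ at `U`: they are related in the same way to all
points of some member of `U`. -/
def SameGerm {n : ℕ} (c : ℕ → ℕ → Fin n) (U : Set (Set ℕ)) (a b : ℕ) : Prop :=
  ∃ A ∈ U, ∀ z ∈ A, c a z = c b z ∧ c z a = c z b

/-- There are at most `m` germs at `U`. -/
def GermsAtMost {n : ℕ} (c : ℕ → ℕ → Fin n) (U : Set (Set ℕ)) (m : ℕ) : Prop :=
  ∃ E : Finset ℕ, E.card ≤ m ∧ ∀ a, ∃ r ∈ E, SameGerm c U a r

/-- The direction `U` is divisible: for every member `A` the group of the automorphisms of `x`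
which are the identity outside `A` has a subgroup `H`, closed for pointwise convergence, with a
continuous homomorphism onto `Equiv.Perm ℕ` which takes the elements of `H` that are the identity
on some member of `U` to permutations with finite support. -/
def Divisible {n : ℕ} {C : Type} (x : Structure n C) (U : Set (Set ℕ)) : Prop :=
  ∀ A ∈ U, ∃ H : Subgroup (Equiv.Perm ℕ),
    (∀ g ∈ H, IsIsomorphism x x g ∧ ∀ z, z ∉ A → g z = z) ∧
    (∀ g : Equiv.Perm ℕ, (∀ E : Finset ℕ, ∃ h ∈ H, ∀ z ∈ E, h z = g z) → g ∈ H) ∧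
    ∃ φ : H →* Equiv.Perm ℕ, Function.Surjective φ ∧
      (∀ i : ℕ, ∃ E : Finset ℕ, ∀ h h' : H,
        (∀ z ∈ E, (h : Equiv.Perm ℕ) z = (h' : Equiv.Perm ℕ) z) → φ h i = φ h' i) ∧
      ∀ (h : H) (B : Set ℕ), B ∈ U → (∀ z ∈ B, (h : Equiv.Perm ℕ) z = z) → {i | φ h i ≠ i}.Finite

/-- The structures which `x` induces on the infinite sets of natural numbers, in all their
enumerations. -/
def Substructures {n : ℕ} {C : Type} (x : Structure n C) : Set (Structure n C) :=
  {y | ∃ f : ℕ → ℕ, Function.Injective f ∧ y = (fun i j => x.1 (f i) (f j), fun i => x.2 (f i))}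

lemma wd_of {n k : ℕ} {c : ℕ → ℕ → Fin n} (h : WidthAtMost c k) :
    Pool.Agent.CW.Wd (fun i j => (c i j : ℕ)) k := by
  intro W hW
  have key : ∀ A, IsPart c k W A → Pool.Agent.CW.MW (fun i j => (c i j : ℕ)) k W A := by
    intro A hA
    induction hA with
    | single v hv => exact Pool.Agent.CW.MW.sing v hv
    | union A B _ _ hd hc h1 h2 =>
      refine Pool.Agent.CW.MW.join A B h1 h2 hd ?_
      obtain ⟨f, hf⟩ := hc
      refine ⟨f, fun a ha a' ha' haa z hz => ?_⟩
      obtain ⟨h3, h4⟩ := hf a ha a' ha' haa z (by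
        rw [Finset.coe_sdiff]
        exact hz)
      rw [Pool.Agent.CW.ee, Pool.Agent.CW.ee, h3, h4]
  exact key W (h W hW)

lemma ee_iff {n : ℕ} {c : ℕ → ℕ → Fin n} {a b z : ℕ} :
    Pool.Agent.CW.ee (fun i j => (c i j : ℕ)) a z = Pool.Agent.CW.ee (fun i j => (c i j : ℕ)) b z ↔
      c a z = c b z ∧ c z a = c z b := by
  unfold Pool.Agent.CW.ee
  rw [Prod.mk.injEq, Fin.val_inj, Fin.val_inj]

lemma fi_iff {n : ℕ} {c : ℕ → ℕ → Fin n} {A : Set ℕ} :
    Pool.Agent.CW.Fi (fun i j => (c i j : ℕ)) A ↔ FiniteIndex c A := by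
  constructor
  · rintro ⟨k, f, hf⟩
    exact ⟨k, f, fun a ha a' ha' h z hz => ee_iff.1 (hf a ha a' ha' h z hz)⟩
  · rintro ⟨k, f, hf⟩
    exact ⟨k, f, fun a ha a' ha' h z hz => ee_iff.2 (hf a ha a' ha' h z hz)⟩

lemma dirn_iff {n : ℕ} {c : ℕ → ℕ → Fin n} {U : Set (Set ℕ)} :
    Pool.Agent.CW.Dirn (fun i j => (c i j : ℕ)) U ↔ IsDirection c U := by
  constructor
  · intro h
    exact ⟨fun A hA => ⟨fi_iff.1 (h.fi A hA), h.fin A hA⟩, h.int, fun A hA => h.ult A (fi_iff.2 hA)⟩
  · rintro ⟨h1, h2, h3⟩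
    refine ⟨fun A hA => fi_iff.2 (h1 A hA).1, fun A hA B hB hAB => ?_, h2,
      fun A hA => h3 A (fi_iff.1 hA), fun A hA => (h1 A hA).2⟩
    rcases h3 B (fi_iff.1 hB) with h | h
    · exact h
    · exfalso
      have h4 := h2 A hA _ h
      have h5 : A ∩ Bᶜ = ∅ := by
        ext x
        simp only [mem_inter_iff, mem_compl_iff, mem_empty_iff_false, iff_false, not_and, not_not]
        exact fun hx => hAB hx
      rw [h5] at h4
      exact (h1 _ h4).2 finite_empty

lemma atM_of {n m : ℕ} {c : ℕ → ℕ → Fin n} (h : ∀ U, IsDirection c U → GermsAtMost c U m) :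
    Pool.Agent.CW.AtM (fun i j => (c i j : ℕ)) m := by
  intro U hU f
  obtain ⟨E, hE, hE'⟩ := h U (dirn_iff.1 hU)
  choose r hr1 hr2 using hE'
  obtain ⟨i, -, j, -, hij, hrr⟩ := Finset.exists_ne_map_eq_of_card_lt_of_maps_to
    (s := (Finset.univ : Finset (Fin (m + 1)))) (t := E) (f := fun i => r (f i))
    (by rw [Finset.card_fin]; omega) (fun i _ => hr1 (f i))
  obtain ⟨A, hA, hA'⟩ := hr2 (f i)
  obtain ⟨B, hB, hB'⟩ := hr2 (f j)
  refine ⟨i, j, hij, A ∩ B, hU.int A hA B hB, fun z hz => ?_⟩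
  have h1 := hA' z hz.1
  have h2 := hB' z hz.2
  have hrr' : r (f i) = r (f j) := hrr
  rw [← hrr'] at h2
  exact ee_iff.2 ⟨h1.1.trans h2.1.symm, h1.2.trans h2.2.symm⟩

lemma rich_of {n : ℕ} {C : Type} {c0 : C} {x : Structure n C}
    (h : Pool.Agent.CW.Rich (Pool.Agent.CW.enc c0 x)) :
    ∃ U, IsDirection x.1 U ∧ (∀ m, ¬ GermsAtMost x.1 U m) ∧ Divisible x U := by
  obtain ⟨U, hU1, hU2, hU3⟩ := h
  have hb : Pool.Agent.CW.bn (Pool.Agent.CW.enc c0 x) = fun i j => (x.1 i j : ℕ) := rfl
  rw [hb] at hU1 hU2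
  refine ⟨U, dirn_iff.1 hU1, ?_, ?_⟩
  · rintro m ⟨E, -, hE⟩
    apply hU2
    refine ⟨E.toList, fun a => ?_⟩
    obtain ⟨r, hr, A, hA, hA'⟩ := hE a
    exact ⟨r, Finset.mem_toList.2 hr, A, hA, fun z hz => ee_iff.2 (hA' z hz)⟩
  · intro A hA
    obtain ⟨H, h1, h2, φ, h3, h4, h0⟩ := hU3 A hA
    refine ⟨H, fun g hg => ⟨?_, (h1 g hg).2⟩, h2, φ, h3, h4, h0⟩
    have h5 := (h1 g hg).1
    refine ⟨fun i j => ?_, fun i => ?_⟩
    · have h6 := h5.2 [i, j]
      change (c0, ((x.1 i j : Fin n) : ℕ)) = (c0, ((x.1 (g i) (g j) : Fin n) : ℕ)) at h6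
      exact (Fin.ext (Prod.ext_iff.1 h6).2).symm
    · have h6 := h5.2 [i]
      change (x.2 i, 0) = (x.2 (g i), 0) at h6
      exact (Prod.ext_iff.1 h6).1.symm

lemma dr_of {n : ℕ} {c : ℕ → ℕ → Fin n} {U : Set (Set ℕ)} (h : IsDirection c U) :
    Pool.Agent.HC.Dr c U := by
  have key : ∀ A, Pool.Agent.HC.FiP c A ↔ FiniteIndex c A := by
    intro A
    constructor
    · rintro ⟨k, f, hf⟩
      exact ⟨k, f, fun a ha a' ha' h z hz => Prod.ext_iff.1 (hf a ha a' ha' h z hz)⟩
    · rintro ⟨k, f, hf⟩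
      exact ⟨k, f, fun a ha a' ha' h z hz => Prod.ext_iff.2 (hf a ha a' ha' h z hz)⟩
  obtain ⟨h1, h2, h3⟩ := h
  exact ⟨fun A hA => ⟨(key A).2 (h1 A hA).1, (h1 A hA).2⟩, h2, fun A hA => h3 A ((key A).1 hA)⟩

lemma germs_of {n : ℕ} {C : Type} [MeasurableSpace C] [StandardBorelSpace C] {x : Structure n C}
    (h : ¬ PerfectlyManyTypes (Substructures x)) :
    ∃ m, ∀ U, IsDirection x.1 U → GermsAtMost x.1 U m := by
  have hP : ¬ Pool.Agent.CW.PerfD (Pool.Agent.HC.Sb x) := h
  obtain ⟨m, hm⟩ := Pool.Agent.HC.germs_of_sub x hP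
  refine ⟨m, fun U hU => ?_⟩
  obtain ⟨E, hE, hE'⟩ := hm U (dr_of hU)
  refine ⟨E, hE, fun a => ?_⟩
  obtain ⟨r, hr, A, hA, hA'⟩ := hE' a
  exact ⟨r, hr, A, hA, fun z hz => Prod.ext_iff.1 (hA' z hz)⟩

/-- **Theorem.** Let `X` be a Borel isomorphism invariant class of structures.  Then `X` has
countably many types, or perfectly many types, or all but countably many types in `X` have
infinite width, directions with arbitrarily many germs and perfectly many types of
substructures, and uncountably many types in `X` have a divisible direction with infinitely many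
germs. -/
theorem result {n : ℕ} {C : Type} [MeasurableSpace C] [StandardBorelSpace C]
    (X : Set (Structure n C)) (hX : MeasurableSet X)
    (hinv : ∀ x ∈ X, ∀ y g, IsIsomorphism x y g → y ∈ X) :
    CountablyManyTypes X ∨ PerfectlyManyTypes X ∨
      (CountablyManyTypes {x ∈ X | (∃ k, WidthAtMost x.1 k) ∨
          (∃ m, ∀ U, IsDirection x.1 U → GermsAtMost x.1 U m) ∨
          ¬ PerfectlyManyTypes (Substructures x)} ∧
        ¬ CountablyManyTypes {x ∈ X | ∃ U, IsDirection x.1 U ∧ (∀ m, ¬ GermsAtMost x.1 U m) ∧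
          Divisible x U}) := by
  rcases Pool.Agent.CW.final_cwg (fun c0 => Pool.Agent.CW.all_CWF2 c0)
    (fun c0 => Pool.Agent.CW.all_CWG c0) Pool.Agent.CW.pf_WMS Pool.Agent.CW.pf_WINV
    (Pool.Agent.CW.pf_GM1 Pool.Agent.CW.pf_FTY Pool.Agent.CW.a_FIX Pool.Agent.CW.pf_FIA)
    Pool.Agent.CW.pf_GM2 Pool.Agent.CW.pf_GM3 X hX
    (fun x hx y ⟨g, h1, h2⟩ => hinv x hx y g ⟨h1, h2⟩) with h | h | ⟨h1, h2⟩
  · exact Or.inl h
  · exact Or.inr (Or.inl h)
  · refine Or.inr (Or.inr ⟨?_, fun h => h2 ?_⟩)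
    · obtain ⟨D, hD1, hD2⟩ := h1
      refine ⟨D, hD1, ?_⟩
      rintro x ⟨hx, ⟨k, hk⟩ | ⟨m, hm⟩ | hs⟩
      · exact hD2 x ⟨hx, Or.inl ⟨k, wd_of hk⟩⟩
      · exact hD2 x ⟨hx, Or.inr ⟨m, atM_of hm⟩⟩
      · obtain ⟨m, hm⟩ := germs_of hs
        exact hD2 x ⟨hx, Or.inr ⟨m, atM_of hm⟩⟩
    · obtain ⟨D, hD1, hD2⟩ := h
      refine ⟨D, hD1, ?_⟩
      rintro x ⟨hx, c0, hR⟩
      exact hD2 x ⟨hx, rich_of hR⟩

/-- **Corollary.** Every Borel class that is closed under infinite induced substructures has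
countably many or perfectly many types. -/
theorem hereditary {n : ℕ} {C : Type} [MeasurableSpace C] [StandardBorelSpace C]
    (X : Set (Structure n C)) (hX : MeasurableSet X) (hsub : ∀ x ∈ X, Substructures x ⊆ X) :
    CountablyManyTypes X ∨ PerfectlyManyTypes X := by
  have hinv : ∀ x ∈ X, ∀ y g, IsIsomorphism x y g → y ∈ X := by
    intro x hx y g hg
    refine hsub x hx ⟨g.symm, g.symm.injective, Prod.ext ?_ ?_⟩
    · funext i j
      have := hg.1 (g.symm i) (g.symm j)
      rw [g.apply_symm_apply, g.apply_symm_apply] at this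
      exact this
    · funext i
      have := hg.2 (g.symm i)
      rw [g.apply_symm_apply] at this
      exact this
  rcases result X hX hinv with h | h | ⟨h, -⟩
  · exact Or.inl h
  · exact Or.inr h
  · by_contra hcon
    obtain ⟨h1, h2⟩ := not_or.1 hcon
    apply h1
    obtain ⟨D, hD1, hD2⟩ := h
    refine ⟨D, hD1, fun x hx => hD2 x ⟨hx, Or.inr (Or.inr fun hp => h2 ?_)⟩⟩
    obtain ⟨F, hF1, hF2, hF3⟩ := hp
    exact ⟨F, hF1, fun u => hsub x hx (hF2 u), hF3⟩

end Pool.Agent.H41.Keep.CliqueWidth3
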